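import Pool.Agent.helper77.MC.Spec

set_option autoImplicit false

namespace Pool.Agent.helper77.MC

open Finset Numbering

private lemma S2_cls (n k : ℕ) (x : Fin n → ℝ) (T : Finset (Fin n)) (C : Finset (Finset (Fin n)))
    (hC : ∀ s ∈ C, #s ≤ k ∧ ∑ i ∈ s, x i = 0 ∧ ∀ i, (i ∈ s ∧ ¬ x i < 0) ↔ i ∈ T) :
    #C ≤ #(fam (fun i : {i : Fin n // x i < 0} => - x i.1) (∑ i ∈ T, x i) (k - #T)) := by
  classical
  apply Finset.card_le_card_of_injOn (fun s => s.subtype (fun i => x i < 0))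
  · intro s hs
    have hs' : s ∈ C := by simpa using hs
    obtain ⟨h1, h2, h3⟩ := hC s hs'
    have h4 : s.filter (fun i => ¬ x i < 0) = T := by
      ext i
      rw [Finset.mem_filter]
      exact h3 i
    have e1 := Finset.sum_filter_add_sum_filter_not s (fun i => x i < 0) x
    have e2 := Finset.card_filter_add_card_filter_not (s := s) (fun i => x i < 0)
    rw [h4] at e1 e2
    have e3 : ∑ i ∈ s.subtype (fun i => x i < 0), (- x i.1) =
        ∑ i ∈ s.filter (fun i => x i < 0), (- x i) :=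
      Finset.sum_subtype_eq_sum_filter (fun i => - x i)
    have e4 : s.subtype (fun i => x i < 0) ∈
        fam (fun i : {i : Fin n // x i < 0} => - x i.1) (∑ i ∈ T, x i) (k - #T) := by
      unfold fam
      rw [Finset.mem_filter]
      refine ⟨Finset.mem_univ _, ?_, ?_⟩
      · rw [e3, Finset.sum_neg_distrib]
        linarith
      · rw [Finset.card_subtype]
        omega
    simpa using e4
  · intro s hs s' hs' h
    have hs1 : s ∈ C := by simpa using hs
    have hs2 : s' ∈ C := by simpa using hs'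
    obtain ⟨-, -, h3⟩ := hC s hs1
    obtain ⟨-, -, h3'⟩ := hC s' hs2
    have h' : s.subtype (fun i => x i < 0) = s'.subtype (fun i => x i < 0) := h
    ext i
    by_cases hi : x i < 0
    · have := congrArg (fun J => (⟨i, hi⟩ : {i : Fin n // x i < 0}) ∈ J) h'
      simpa using this
    · constructor
      · intro hm
        exact ((h3' i).2 ((h3 i).1 ⟨hm, hi⟩)).1
      · intro hm
        exact ((h3 i).2 ((h3' i).1 ⟨hm, hi⟩)).1

theorem S2 : S2_stmt := by
  classical
  intro n k x u v hx huv hpos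
  have hu : 0 < x u := (hpos u).2 (Or.inl rfl)
  have hv : 0 < x v := (hpos v).2 (Or.inr rfl)
  let Z : Finset (Finset (Fin n)) := Finset.univ.filter
    (fun s : Finset (Fin n) => s.Nonempty ∧ #s ≤ k ∧ ∑ i ∈ s, x i = 0)
  have hZ : Pool.Agent.helper72.UP.zer x k = #Z := by
    unfold Pool.Agent.helper72.UP.zer
    apply congrArg
    ext s
    simp [Z]
  have hZm : ∀ s ∈ Z, s.Nonempty ∧ #s ≤ k ∧ ∑ i ∈ s, x i = 0 := fun s hs => (Finset.mem_filter.1 hs).2
  have key : ∀ i, ¬ x i < 0 → i = u ∨ i = v := fun i hi =>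
    (hpos i).1 (lt_of_le_of_ne (not_lt.1 hi) (hx i).symm)
  have c1 := S2_cls n k x {u} (Z.filter (fun s => u ∈ s ∧ v ∉ s)) (by
    intro s hs
    obtain ⟨hs, hsu, hsv⟩ := Finset.mem_filter.1 hs
    obtain ⟨h1, h2, h3⟩ := hZm s hs
    refine ⟨h2, h3, fun i => ?_⟩
    rw [Finset.mem_singleton]
    constructor
    · rintro ⟨hi, hi'⟩
      rcases key i hi' with h | h
      · exact h
      · exact absurd (h ▸ hi) hsv
    · intro h
      subst h
      exact ⟨hsu, not_lt.2 hu.le⟩)
  have c2 := S2_cls n k x {v} (Z.filter (fun s => u ∉ s ∧ v ∈ s)) (by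
    intro s hs
    obtain ⟨hs, hsu, hsv⟩ := Finset.mem_filter.1 hs
    obtain ⟨h1, h2, h3⟩ := hZm s hs
    refine ⟨h2, h3, fun i => ?_⟩
    rw [Finset.mem_singleton]
    constructor
    · rintro ⟨hi, hi'⟩
      rcases key i hi' with h | h
      · exact absurd (h ▸ hi) hsu
      · exact h
    · intro h
      subst h
      exact ⟨hsv, not_lt.2 hv.le⟩)
  have c3 := S2_cls n k x {u, v} (Z.filter (fun s => u ∈ s ∧ v ∈ s)) (by
    intro s hs
    obtain ⟨hs, hsu, hsv⟩ := Finset.mem_filter.1 hs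
    obtain ⟨h1, h2, h3⟩ := hZm s hs
    refine ⟨h2, h3, fun i => ?_⟩
    rw [Finset.mem_insert, Finset.mem_singleton]
    constructor
    · rintro ⟨hi, hi'⟩
      exact key i hi'
    · rintro (h | h)
      · subst h
        exact ⟨hsu, not_lt.2 hu.le⟩
      · subst h
        exact ⟨hsv, not_lt.2 hv.le⟩)
  rw [Finset.sum_singleton, Finset.card_singleton] at c1 c2
  rw [Finset.sum_pair huv, Finset.card_pair huv] at c3
  have hcov : Z ⊆ (Z.filter (fun s => u ∈ s ∧ v ∉ s)) ∪ (Z.filter (fun s => u ∉ s ∧ v ∈ s)) ∪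
      (Z.filter (fun s => u ∈ s ∧ v ∈ s)) := by
    intro s hs
    rw [Finset.mem_union, Finset.mem_union]
    obtain ⟨h1, h2, h3⟩ := hZm s hs
    by_cases hsu : u ∈ s
    · by_cases hsv : v ∈ s
      · exact Or.inr (Finset.mem_filter.2 ⟨hs, hsu, hsv⟩)
      · exact Or.inl (Or.inl (Finset.mem_filter.2 ⟨hs, hsu, hsv⟩))
    · by_cases hsv : v ∈ s
      · exact Or.inl (Or.inr (Finset.mem_filter.2 ⟨hs, hsu, hsv⟩))
      · exfalso
        have : ∑ i ∈ s, x i < 0 := by
          apply Finset.sum_neg _ h1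
          intro i hi
          by_contra hc
          rcases key i hc with h | h
          · exact hsu (h ▸ hi)
          · exact hsv (h ▸ hi)
        linarith
  rw [hZ]
  calc #Z ≤ _ := Finset.card_le_card hcov
    _ ≤ #((Z.filter (fun s => u ∈ s ∧ v ∉ s)) ∪ (Z.filter (fun s => u ∉ s ∧ v ∈ s))) +
        #(Z.filter (fun s => u ∈ s ∧ v ∈ s)) := Finset.card_union_le _ _
    _ ≤ #(Z.filter (fun s => u ∈ s ∧ v ∉ s)) + #(Z.filter (fun s => u ∉ s ∧ v ∈ s)) +
        #(Z.filter (fun s => u ∈ s ∧ v ∈ s)) := Nat.add_le_add_right (Finset.card_union_le _ _) _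
    _ ≤ _ := Nat.add_le_add (Nat.add_le_add c1 c2) c3

end Pool.Agent.helper77.MC
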